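import Pool.Agent.N879.GD.Stm

/-!
# Project GDZ (helper260), package DIL1 (helper67)

The mean square over one dilation, from the Mellin transform of `|ζ|² - D0` with a smooth weight and
Plancherel's theorem.
-/

set_option autoImplicit false

namespace Pool.Agent.U67.GZ

open Complex Filter Topology MeasureTheory Set
open scoped ENNReal
open Pool.Agent.N879.GD
open Pool.Agent.Y969.GP (ff)

/-- the cut-off function -/
lemma exists_cut (A : ℝ) (hA : 1 ≤ A) : ∃ w : ℝ → ℝ, ContDiff ℝ (⊤ : ℕ∞) w ∧ HasCompactSupport w ∧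
    tsupport w ⊆ Ioi 0 ∧ (∀ x, A⁻¹ ≤ x → x ≤ 2 * A → w x = 1) ∧
    (∀ x, x ≤ A⁻¹ / 2 → w x = 0) ∧ (∀ x, 3 * A ≤ x → w x = 0) := by
  have hA0 : 0 < A := by linarith
  have hA1 : A⁻¹ ≤ 1 := inv_le_one_of_one_le₀ hA
  have hAi : 0 < A⁻¹ := inv_pos.2 hA0
  let f : ContDiffBump ((A⁻¹ + 2 * A) / 2 : ℝ) :=
    ⟨(2 * A - A⁻¹) / 2, A, by linarith, by linarith⟩
  have hin : f.rIn = (2 * A - A⁻¹) / 2 := rfl
  have hout : f.rOut = A := rfl
  refine ⟨f, f.contDiff, f.hasCompactSupport, ?_, ?_, ?_, ?_⟩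
  · rw [f.tsupport_eq]
    intro x hx
    rw [Metric.mem_closedBall, Real.dist_eq, abs_le, hout] at hx
    rw [mem_Ioi]
    linarith [hx.1]
  · intro x h1 h2
    refine f.one_of_mem_closedBall ?_
    rw [Metric.mem_closedBall, Real.dist_eq, abs_le, hin]
    constructor <;> linarith
  · intro x h1
    refine f.zero_of_le_dist ?_
    rw [hout, Real.dist_eq, abs_sub_comm]
    refine le_trans ?_ (le_abs_self _)
    linarith
  · intro x h1
    refine f.zero_of_le_dist ?_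
    rw [hout, Real.dist_eq]
    refine le_trans ?_ (le_abs_self _)
    linarith

theorem t_DIL1 (h1 : S_LEW) (h2 : S_PL) (h3 : S_CRU) : S_DIL1 := by
  obtain ⟨δ, hδ, hδ1, hw⟩ := h1
  obtain ⟨-, -, -, hff, -, -⟩ := h3
  refine ⟨δ, hδ, hδ1, fun A hA => ?_⟩
  have hA0 : 0 < A := by linarith
  have hAi : 0 < A⁻¹ := inv_pos.2 hA0
  have hA1 : A⁻¹ ≤ 1 := inv_le_one_of_one_le₀ hA
  obtain ⟨w, w1, w2, w3, w4, w5, w6⟩ := exists_cut A hA
  obtain ⟨C, T₀, hC, hT₀, hm⟩ := hw w w1 w2 w3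
  refine ⟨2 * A * C ^ 2, T₀, by positivity, hT₀, fun T F hT hF => ?_⟩
  have hT1 : 1 ≤ T := hT₀.trans hT
  have hT0 : 0 < T := by linarith
  have hTp : 0 < T ^ (1 - 2 * δ) := Real.rpow_pos_of_pos hT0 _
  by_cases hinf : ∫⁻ t in Icc T (2 * T), ‖F t‖ₑ ^ 2 = ⊤
  · rw [hinf, ENNReal.mul_top]
    · exact le_top
    · rw [Ne, ENNReal.ofReal_eq_zero, not_le]
      positivity
  -- the two functions
  set g : ℝ → ℝ := fun u => w (u / T) * (ff u - D0 u) with hg
  set G : ℝ → ℂ := fun u => ((g u : ℝ) : ℂ) with hG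
  set F' : ℝ → ℂ := (Icc T (2 * T)).indicator fun t => (t : ℂ) * F t with hF'
  have hF'm : Measurable F' :=
    (Complex.measurable_ofReal.mul hF).indicator measurableSet_Icc
  have hgc : Continuous g := by
    rw [continuous_iff_continuousAt]
    intro u
    by_cases hu : 0 < u
    · refine ContinuousAt.mul ?_ ?_
      · exact (w1.continuous.comp (continuous_id.div_const T)).continuousAt
      · refine hff.continuousAt.sub ?_
        unfold D0
        refine ContinuousAt.add ?_ continuousAt_const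
        refine ContinuousAt.log ?_ ?_
        · exact continuousAt_id.div_const _
        · have : 0 < u / (2 * Real.pi) := div_pos hu (by positivity)
          exact this.ne'
    · have hev : g =ᶠ[𝓝 u] fun _ => 0 := by
        have hlt : u < T * (A⁻¹ / 2) := by
          have : 0 < T * (A⁻¹ / 2) := by positivity
          linarith [not_lt.1 hu]
        filter_upwards [Iio_mem_nhds hlt] with v hv
        rw [hg]
        simp only
        rw [w5 _ ?_, zero_mul]
        rw [div_le_iff₀ hT0]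
        linarith [mem_Iio.1 hv, mul_comm T (A⁻¹ / 2)]
      exact (continuousAt_const.congr hev.symm)
  have hGc : Continuous G := Complex.continuous_ofReal.comp hgc
  have hG0 : ∀ t, t ∉ Icc (T * (A⁻¹ / 2)) (T * (3 * A)) → G t = 0 := by
    intro t ht
    have : g t = 0 := by
      rw [mem_Icc, not_and_or, not_le, not_le] at ht
      rw [hg]
      simp only
      rcases ht with ht | ht
      · rw [w5 _ ?_, zero_mul]
        rw [div_le_iff₀ hT0]
        linarith [mul_comm T (A⁻¹ / 2)]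
      · rw [w6 _ ?_, zero_mul]
        rw [le_div_iff₀ hT0]
        linarith [mul_comm T (3 * A)]
    rw [hG]
    simp only
    rw [this, Complex.ofReal_zero]
  have hF0 : ∀ t, t ∉ Icc (T * (A⁻¹ / 2)) (T * (3 * A)) → F' t = 0 := by
    intro t ht
    refine indicator_of_notMem (fun h => ht ?_) _
    refine ⟨le_trans ?_ h.1, h.2.trans ?_⟩
    · nlinarith
    · nlinarith
  -- the norm of `F'`
  have hFn : ∀ t, ‖F' t‖ₑ ^ 2 * ENNReal.ofReal t⁻¹ ≤
      ENNReal.ofReal (2 * T) * (Icc T (2 * T)).indicator (fun t => ‖F t‖ₑ ^ 2) t := by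
    intro t
    by_cases ht : t ∈ Icc T (2 * T)
    · have ht0 : 0 < t := hT0.trans_le ht.1
      rw [hF', indicator_of_mem ht, indicator_of_mem ht, enorm_mul, mul_pow]
      have e1 : ‖(t : ℂ)‖ₑ = ENNReal.ofReal t := by
        rw [← ofReal_norm, Complex.norm_real, Real.norm_of_nonneg ht0.le]
      rw [e1, mul_right_comm, ← ENNReal.ofReal_pow ht0.le, ← ENNReal.ofReal_mul (by positivity)]
      refine mul_le_mul_left (ENNReal.ofReal_le_ofReal ?_) _
      have : t ^ 2 * t⁻¹ = t := by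
        field_simp
      rw [this]
      exact ht.2
    · rw [hF', indicator_of_notMem ht]
      simp
  have hFfin : ∫⁻ t, ‖F' t‖ₑ ^ 2 ≠ ⊤ := by
    have h4 : ∀ t, ‖F' t‖ₑ ^ 2 ≤ ENNReal.ofReal ((2 * T) ^ 2) *
        (Icc T (2 * T)).indicator (fun t => ‖F t‖ₑ ^ 2) t := by
      intro t
      by_cases ht : t ∈ Icc T (2 * T)
      · have ht0 : 0 < t := hT0.trans_le ht.1
        rw [hF', indicator_of_mem ht, indicator_of_mem ht, enorm_mul, mul_pow]
        have e1 : ‖(t : ℂ)‖ₑ = ENNReal.ofReal t := by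
          rw [← ofReal_norm, Complex.norm_real, Real.norm_of_nonneg ht0.le]
        rw [e1, ← ENNReal.ofReal_pow ht0.le]
        refine mul_le_mul_left (ENNReal.ofReal_le_ofReal ?_) _
        exact pow_le_pow_left₀ ht0.le ht.2 2
      · rw [hF', indicator_of_notMem ht]
        simp
    refine ne_top_of_le_ne_top ?_ (lintegral_mono h4)
    rw [lintegral_const_mul' _ _ ENNReal.ofReal_ne_top, lintegral_indicator measurableSet_Icc]
    exact ENNReal.mul_ne_top ENNReal.ofReal_ne_top hinf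
  have hB0 : 0 ≤ C * T ^ (-δ) := mul_nonneg hC.le (Real.rpow_nonneg hT0.le _)
  have hMel : ∀ τ : ℝ, ‖∫ u in Ioi (0 : ℝ), G u / u *
      cexp (-(I * ((τ * Real.log u : ℝ) : ℂ)))‖ ≤ C * T ^ (-δ) := by
    intro τ
    have := hm T τ hT
    refine le_trans (le_of_eq ?_) this
    congr 1
    refine integral_congr_ae (Filter.Eventually.of_forall fun u => ?_)
    simp only [hG, hg]
    push_cast
    ring
  have key := h2 F' G (T * (A⁻¹ / 2)) (T * (3 * A)) (C * T ^ (-δ)) (by positivity)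
    (by nlinarith) hF'm hF0 hFfin hGc hG0 hB0 hMel
  -- the inner integral
  have hinner : ∀ l ∈ Icc A⁻¹ A, ∫ t in Ioi (0 : ℝ), F' t * G (l * t) / t =
      ∫ t in Icc T (2 * T), F t * ((ff (l * t) - D0 (l * t) : ℝ) : ℂ) := by
    intro l hl
    have hl0 : 0 < l := hAi.trans_le hl.1
    have e1 : ∀ t, F' t * G (l * t) / t = (Icc T (2 * T)).indicator
        (fun t => F t * ((ff (l * t) - D0 (l * t) : ℝ) : ℂ)) t := by
      intro t
      by_cases ht : t ∈ Icc T (2 * T)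
      · have ht0 : 0 < t := hT0.trans_le ht.1
        have htc : (t : ℂ) ≠ 0 := by exact_mod_cast ht0.ne'
        have hw1 : w (l * t / T) = 1 := by
          refine w4 _ ?_ ?_
          · rw [le_div_iff₀ hT0]
            exact mul_le_mul hl.1 ht.1 hT0.le hl0.le
          · rw [div_le_iff₀ hT0]
            calc l * t ≤ A * (2 * T) := mul_le_mul hl.2 ht.2 ht0.le hA0.le
              _ = 2 * A * T := by ring
        rw [hF', indicator_of_mem ht, indicator_of_mem ht, hG, hg]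
        simp only
        rw [hw1, one_mul]
        field_simp
      · rw [hF', indicator_of_notMem ht, indicator_of_notMem ht]
        simp
    rw [integral_congr_ae (Filter.Eventually.of_forall e1), setIntegral_indicator measurableSet_Icc]
    congr 2
    rw [inter_eq_right]
    intro t ht
    exact hT0.trans_le ht.1
  have hleft : ∫⁻ l in Icc A⁻¹ A,
      ‖∫ t in Icc T (2 * T), F t * ((ff (l * t) - D0 (l * t) : ℝ) : ℂ)‖ₑ ^ 2 ≤
      ENNReal.ofReal A * ∫⁻ l in Ioi (0 : ℝ),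
        ‖∫ t in Ioi (0 : ℝ), F' t * G (l * t) / t‖ₑ ^ 2 * ENNReal.ofReal l⁻¹ := by
    rw [← lintegral_const_mul' _ _ ENNReal.ofReal_ne_top]
    refine le_trans ?_ (lintegral_mono_set (fun l hl => hAi.trans_le (mem_Icc.1 hl).1 :
      Icc A⁻¹ A ⊆ Ioi (0 : ℝ)))
    refine setLIntegral_mono' measurableSet_Icc fun l hl => ?_
    rw [hinner l hl]
    have hl0 : 0 < l := hAi.trans_le hl.1
    have e2 : 1 ≤ ENNReal.ofReal A * ENNReal.ofReal l⁻¹ := by
      rw [← ENNReal.ofReal_mul hA0.le, ← ENNReal.ofReal_one]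
      refine ENNReal.ofReal_le_ofReal ?_
      rw [← div_eq_mul_inv, le_div_iff₀ hl0, one_mul]
      exact hl.2
    calc ‖∫ t in Icc T (2 * T), F t * ((ff (l * t) - D0 (l * t) : ℝ) : ℂ)‖ₑ ^ 2
        = 1 * ‖∫ t in Icc T (2 * T), F t * ((ff (l * t) - D0 (l * t) : ℝ) : ℂ)‖ₑ ^ 2 := by
          rw [one_mul]
      _ ≤ ENNReal.ofReal A * ENNReal.ofReal l⁻¹ *
          ‖∫ t in Icc T (2 * T), F t * ((ff (l * t) - D0 (l * t) : ℝ) : ℂ)‖ₑ ^ 2 := by
          gcongr
      _ = _ := by rw [mul_assoc, mul_comm (ENNReal.ofReal l⁻¹)]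
  have hright : ∫⁻ t in Ioi (0 : ℝ), ‖F' t‖ₑ ^ 2 * ENNReal.ofReal t⁻¹ ≤
      ENNReal.ofReal (2 * T) * ∫⁻ t in Icc T (2 * T), ‖F t‖ₑ ^ 2 := by
    calc ∫⁻ t in Ioi (0 : ℝ), ‖F' t‖ₑ ^ 2 * ENNReal.ofReal t⁻¹
        ≤ ∫⁻ t, ‖F' t‖ₑ ^ 2 * ENNReal.ofReal t⁻¹ := setLIntegral_le_lintegral _ _
      _ ≤ ∫⁻ t, ENNReal.ofReal (2 * T) *
          (Icc T (2 * T)).indicator (fun t => ‖F t‖ₑ ^ 2) t := lintegral_mono hFn
      _ = ENNReal.ofReal (2 * T) * ∫⁻ t in Icc T (2 * T), ‖F t‖ₑ ^ 2 := by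
          rw [lintegral_const_mul' _ _ ENNReal.ofReal_ne_top, lintegral_indicator measurableSet_Icc]
  have hconst : A * ((C * T ^ (-δ)) ^ 2 * (2 * T)) = 2 * A * C ^ 2 * T ^ (1 - 2 * δ) := by
    have e3 : (T ^ (-δ)) ^ 2 * T = T ^ (1 - 2 * δ) := by
      rw [← Real.rpow_natCast, ← Real.rpow_mul hT0.le]
      conv_lhs => rw [← Real.rpow_one T, ← Real.rpow_mul hT0.le]
      rw [← Real.rpow_add hT0]
      congr 1
      push_cast
      ring
    calc A * ((C * T ^ (-δ)) ^ 2 * (2 * T)) = 2 * A * C ^ 2 * ((T ^ (-δ)) ^ 2 * T) := by ring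
      _ = _ := by rw [e3]
  calc ∫⁻ l in Icc A⁻¹ A,
      ‖∫ t in Icc T (2 * T), F t * ((ff (l * t) - D0 (l * t) : ℝ) : ℂ)‖ₑ ^ 2
      ≤ ENNReal.ofReal A * ∫⁻ l in Ioi (0 : ℝ),
        ‖∫ t in Ioi (0 : ℝ), F' t * G (l * t) / t‖ₑ ^ 2 * ENNReal.ofReal l⁻¹ := hleft
    _ ≤ ENNReal.ofReal A * (ENNReal.ofReal ((C * T ^ (-δ)) ^ 2) *
        ∫⁻ t in Ioi (0 : ℝ), ‖F' t‖ₑ ^ 2 * ENNReal.ofReal t⁻¹) := by gcongr
    _ ≤ ENNReal.ofReal A * (ENNReal.ofReal ((C * T ^ (-δ)) ^ 2) *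
        (ENNReal.ofReal (2 * T) * ∫⁻ t in Icc T (2 * T), ‖F t‖ₑ ^ 2)) := by gcongr
    _ = ENNReal.ofReal (A * ((C * T ^ (-δ)) ^ 2 * (2 * T))) *
        ∫⁻ t in Icc T (2 * T), ‖F t‖ₑ ^ 2 := by
        rw [ENNReal.ofReal_mul hA0.le,
          ENNReal.ofReal_mul (p := (C * T ^ (-δ)) ^ 2) (q := 2 * T) (by positivity),
          mul_assoc, mul_assoc]
    _ = _ := by rw [hconst]

end Pool.Agent.U67.GZ
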