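import Pool.Agent.U79.GZ.Stm
import Pool.Agent.U141.GY.HAL2

/-!
# Project GZ (helper79), package HALZ (helper67)

The bound `HALP` for the configuration of `b`, `c` and the set `ZZ M` of the integers composed of the
primes of `M`, from the logarithmic density of the sets of primes on which independent quadratic
characters are `1` (following `Pool/Agent/U141/GY/HAL2.lean`).
-/

set_option autoImplicit false

open scoped Classical

namespace Pool.Agent.U67.GZ

open Finset
open Pool.Agent.Y703.CQ (nr)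
open Pool.Agent.U79.GY (Hc Sp Mod cfg Ind S_HAL1 S_DEN S_CFG HZ da)
open Pool.Agent.U79.GZ (nz HD HALP ZZ S_HALZ)
open Pool.Agent.U141.GY (sgn sgn_zero sgn_add sgn_sum jacobi_prod jacobi_one jacobi_nr)

lemma jacobi_nz {p : ℕ} (hp : p.Prime) {z : ℤ} (h0 : (z : ZMod p) ≠ 0) :
    jacobiSym z p = sgn (nz p z) := by
  have := Fact.mk hp
  rw [← jacobiSym.legendreSym.to_jacobiSym]
  unfold nz sgn
  by_cases h : IsSquare (z : ZMod p)
  · rw [if_pos h, if_pos rfl]
    exact (legendreSym.eq_one_iff p h0).2 h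
  · rw [if_neg h, if_neg (by decide)]
    exact (legendreSym.eq_neg_one_iff p).2 h

lemma zz_dvd {M : ℕ} {z : ℤ} (hz : z ∈ ZZ M) : z.natAbs ∣ M := by
  unfold ZZ at hz
  obtain ⟨t, ht, rfl⟩ := Finset.mem_image.1 hz
  obtain ⟨h1, h2⟩ := Finset.mem_product.1 ht
  have h3 : (∏ l ∈ t.2, l) ∣ M :=
    (Finset.prod_dvd_prod_of_subset _ _ _ (Finset.mem_powerset.1 h2)).trans
      (Nat.prod_primeFactors_dvd M)
  have h4 : t.1.natAbs = 1 := by
    rcases Finset.mem_insert.1 h1 with h | h
    · rw [h]; rfl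
    · rw [Finset.mem_singleton.1 h]; rfl
  rw [Int.natAbs_mul, h4, one_mul, Int.natAbs_natCast]
  exact h3

/-- the comparison of the logarithms -/
lemma log_cmp {M m P : ℕ} (hM : 0 < M) (hm : m ∣ M) (hP : 3 ≤ P) :
    (Real.log ((m * P : ℕ) : ℝ)) ^ (1 / 2 : ℝ) ≤
      (1 + Real.log M) ^ (1 / 2 : ℝ) * (Real.log (P : ℝ)) ^ (1 / 2 : ℝ) := by
  have hm0 : 0 < m := Nat.pos_of_dvd_of_pos hm hM
  have hmM : m ≤ M := Nat.le_of_dvd hM hm
  have hm1 : (1 : ℝ) ≤ m := by exact_mod_cast hm0
  have hM1 : (1 : ℝ) ≤ M := by exact_mod_cast hM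
  have hP3 : (3 : ℝ) ≤ P := by exact_mod_cast hP
  have hlm : 0 ≤ Real.log m := Real.log_nonneg hm1
  have hlM : 0 ≤ Real.log M := Real.log_nonneg hM1
  have hlmM : Real.log m ≤ Real.log M :=
    Real.log_le_log (by linarith) (by exact_mod_cast hmM)
  have hlP : 1 ≤ Real.log P := by
    rw [Real.le_log_iff_exp_le (by linarith)]
    have := Real.exp_one_lt_d9
    linarith
  rw [← Real.mul_rpow (by linarith) (by linarith)]
  refine Real.rpow_le_rpow (Real.log_nonneg ?_) ?_ (by norm_num)
  · have : 1 ≤ m * P := Nat.one_le_iff_ne_zero.2 (Nat.mul_ne_zero (by omega) (by omega))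
    exact_mod_cast this
  · push_cast
    rw [Real.log_mul (by linarith) (by linarith)]
    nlinarith

theorem t_HALZ : S_HALZ := by
  intro hal den cfgT b c M hM hb hc
  obtain ⟨hOk, hSp, hIn⟩ := cfgT b c M hM hb hc
  obtain ⟨den1, den2⟩ := den b c M hM hb hc
  have hb0 : ∀ a : ℤ, a = b ∨ a = c → a.natAbs ∣ M := by
    rintro a (rfl | rfl)
    · exact hM.hb
    · exact hM.hc
  have hLM : 0 ≤ Real.log M := Real.log_nonneg (by exact_mod_cast hM.pos)
  have hL1 : 1 ≤ (1 + Real.log M) ^ (1 / 2 : ℝ) := Real.one_le_rpow (by linarith) (by norm_num)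
  have main : ∀ V : Finset ℤ, Ind V → (∀ a ∈ V, a = b ∨ a = c) →
      (1 : ℝ) / 2 ^ (V.card + 1) = da (cfg b c M) / 2 → HALP (cfg b c M) (ZZ M) := by
    intro V hV hVbc hexp
    obtain ⟨C, hC1, hC⟩ := hal V hV
    refine ⟨C * (1 + Real.log M) ^ (1 / 2 : ℝ), by nlinarith, fun W z T hz hWne hW hT => ?_⟩
    have hzM : z.natAbs ∣ M := zz_dvd hz
    set w : ℤ := z * ∏ u ∈ W, (u : ℤ) with hw
    have hWu : ∀ u ∈ W, u.Prime ∧ ¬ u ∣ M := fun u hu =>
      ⟨(hW u hu).1, ((hSp u (hW u hu).1).1 ⟨(hW u hu).1, (hW u hu).2⟩).1⟩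
    have hnat : w.natAbs = z.natAbs * ∏ u ∈ W, u := by
      rw [hw, Int.natAbs_mul]
      have h1 : (∏ u ∈ W, (u : ℤ)) = ((∏ u ∈ W, u : ℕ) : ℤ) := by push_cast; rfl
      rw [h1, Int.natAbs_natCast]
    clear_value w
    obtain ⟨u, hu⟩ := hWne
    have hup := (hWu u hu).1
    have huM := (hWu u hu).2
    have hu2 : u ≠ 2 := fun h => huM (h ▸ hM.two)
    have hu3 : 3 ≤ u := by
      have := hup.two_le
      omega
    have hpos : 0 < ∏ u ∈ W, u := Finset.prod_pos fun v hv => (hWu v hv).1.pos
    have hzpos : 0 < z.natAbs := Nat.pos_of_dvd_of_pos hzM hM.pos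
    have hP3 : 3 ≤ ∏ u ∈ W, u :=
      hu3.trans (Nat.le_of_dvd hpos (Finset.dvd_prod_of_mem _ hu))
    have h3 : 3 ≤ w.natAbs := by
      rw [hnat]
      exact hP3.trans (Nat.le_mul_of_pos_left _ hzpos)
    have hndvd : ∀ a ∈ V, ¬ u ∣ a.natAbs := fun a ha h => huM (h.trans (hb0 a (hVbc a ha)))
    have hwV : w ∉ V := by
      intro h
      refine hndvd w h ?_
      rw [hnat]
      exact Dvd.dvd.mul_left (Finset.dvd_prod_of_mem _ hu) _
    have hPu : ¬ u ∣ ∏ v ∈ W.erase u, v := by
      intro h
      obtain ⟨v, hv, hd⟩ := (Prime.dvd_finsetProd_iff hup.prime _).1 h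
      have hv' := Finset.mem_erase.1 hv
      exact hv'.1 ((Nat.prime_dvd_prime_iff_eq hup (hWu v hv'.2).1).1 hd).symm
    have hPz : ¬ u ∣ z.natAbs * ∏ v ∈ W.erase u, v := by
      intro h
      rcases (Nat.Prime.dvd_mul hup).1 h with h | h
      · exact huM (h.trans hzM)
      · exact hPu h
    have hInd : Ind (insert w V) := by
      intro V' hV' hne hsq
      by_cases hwV' : w ∈ V'
      · obtain ⟨x, hx⟩ := hsq
        have h1 : w * ∏ a ∈ V'.erase w, a = x * x := by
          rw [← hx]
          exact Finset.mul_prod_erase V' (fun a => a) hwV'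
        have h2 : ¬ u ∣ (∏ a ∈ V'.erase w, a).natAbs := by
          intro h
          have h' : (u : ℤ) ∣ ∏ a ∈ V'.erase w, a := Int.natCast_dvd.2 h
          obtain ⟨a, ha, hd⟩ := (Prime.dvd_finsetProd_iff
            (Nat.prime_iff_prime_int.1 hup) _).1 h'
          have ha' := Finset.mem_erase.1 ha
          have ha'' : a ∈ V := (Finset.mem_insert.1 (hV' ha'.2)).resolve_left ha'.1
          exact hndvd a ha'' (Int.natCast_dvd.1 hd)
        have h4 := congrArg Int.natAbs h1
        rw [Int.natAbs_mul, Int.natAbs_mul, hnat, ← Finset.mul_prod_erase W (fun v => v) hu] at h4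
        have h4' : u * ((z.natAbs * ∏ v ∈ W.erase u, v) * (∏ a ∈ V'.erase w, a).natAbs) =
            x.natAbs * x.natAbs := by
          rw [← h4]
          ring
        have h5 : u ∣ x.natAbs * x.natAbs := by
          rw [← h4']
          exact dvd_mul_right _ _
        have h6 : u ∣ x.natAbs := by
          rcases (Nat.Prime.dvd_mul hup).1 h5 with h | h <;> exact h
        obtain ⟨y, hy⟩ := h6
        rw [hy] at h4'
        have h7 : (z.natAbs * ∏ v ∈ W.erase u, v) * (∏ a ∈ V'.erase w, a).natAbs =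
            u * (y * y) := by
          refine Nat.eq_of_mul_eq_mul_left hup.pos ?_
          rw [h4']
          ring
        have h8 : u ∣ (z.natAbs * ∏ v ∈ W.erase u, v) * (∏ a ∈ V'.erase w, a).natAbs := by
          rw [h7]
          exact dvd_mul_right _ _
        rcases (Nat.Prime.dvd_mul hup).1 h8 with h | h
        · exact hPz h
        · exact h2 h
      · refine hV V' (fun a ha => ?_) hne hsq
        rcases Finset.mem_insert.1 (hV' ha) with h | h
        · exact absurd (h ▸ ha) hwV'
        · exact h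
    have hsub : HD (cfg b c M) W z T ⊆ HZ (insert w V) T := by
      intro S hS
      rw [HD, Finset.mem_filter] at hS
      rw [HZ, Finset.mem_filter]
      refine ⟨hS.1, fun p hp => ?_, hS.2.2⟩
      obtain ⟨hpS, hpW, hpsum⟩ := hS.2.1 p hp
      have hpp := hpS.1
      obtain ⟨hpM, hpb, hpc⟩ := (hSp p hpp).1 hpS
      have hp2 : p ≠ 2 := fun h => hpM (h ▸ hM.two)
      refine ⟨hpp, hp2, fun a ha => ?_⟩
      rcases Finset.mem_insert.1 ha with rfl | ha
      · have hzne : ((z : ℤ) : ZMod p) ≠ 0 := by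
          intro h0
          rw [ZMod.intCast_zmod_eq_zero_iff_dvd] at h0
          exact hpM ((Int.natCast_dvd.1 h0).trans hzM)
        rw [hw, jacobiSym.mul_left, jacobi_nz hpp hzne, jacobi_prod]
        have h1 : ∏ u ∈ W, jacobiSym (u : ℤ) p = ∏ u ∈ W, sgn (nr p u) := by
          refine Finset.prod_congr rfl fun v hv => jacobi_nr hpp ?_
          intro h0
          rw [ZMod.natCast_eq_zero_iff] at h0
          exact hpW (((Nat.prime_dvd_prime_iff_eq hpp (hWu v hv).1).1 h0) ▸ hv)
        rw [h1, ← sgn_sum, ← sgn_add, add_comm, hpsum, sgn_zero]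
      · have hane : ((a : ℤ) : ZMod p) ≠ 0 := by
          intro h0
          rw [ZMod.intCast_zmod_eq_zero_iff_dvd] at h0
          exact hpM ((Int.natCast_dvd.1 h0).trans (hb0 a (hVbc a ha)))
        refine jacobi_one hpp hane ?_
        rcases hVbc a ha with rfl | rfl
        · exact hpb
        · exact hpc
    have hlT : 0 ≤ (Real.log T) ^ ((1 : ℝ) / 2 ^ (V.card + 1)) := by
      refine Real.rpow_nonneg (Real.log_nonneg ?_) _
      have : 1 ≤ T := by omega
      exact_mod_cast this
    calc ∑ S ∈ HD (cfg b c M) W z T, (1 : ℝ) / ((∏ p ∈ S, p : ℕ) : ℝ)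
        ≤ ∑ S ∈ HZ (insert w V) T, (1 : ℝ) / ((∏ p ∈ S, p : ℕ) : ℝ) :=
          Finset.sum_le_sum_of_subset_of_nonneg hsub fun S _ _ => by positivity
      _ ≤ C * (Real.log (w.natAbs : ℝ)) ^ (1 / 2 : ℝ) *
          (Real.log T) ^ ((1 : ℝ) / 2 ^ (V.card + 1)) := hC w T h3 hwV hInd hT
      _ ≤ C * ((1 + Real.log M) ^ (1 / 2 : ℝ) *
            (Real.log ((∏ u ∈ W, u : ℕ) : ℝ)) ^ (1 / 2 : ℝ)) *
          (Real.log T) ^ ((1 : ℝ) / 2 ^ (V.card + 1)) := by
          rw [hnat]
          exact mul_le_mul_of_nonneg_right (mul_le_mul_of_nonneg_left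
            (log_cmp hM.pos hzM hP3) (by linarith)) hlT
      _ = C * (1 + Real.log M) ^ (1 / 2 : ℝ) *
            (Real.log ((∏ u ∈ W, u : ℕ) : ℝ)) ^ (1 / 2 : ℝ) *
          (Real.log T) ^ (da (cfg b c M) / 2 : ℝ) := by rw [hexp]; ring
  by_cases h : IsSquare (b * c)
  · refine main {b} ?_ ?_ ?_
    · intro V' hV' hne hsq
      rcases Finset.subset_singleton_iff.1 hV' with rfl | rfl
      · exact absurd hne (by simp)
      · rw [Finset.prod_singleton] at hsq
        exact hb hsq
    · intro a ha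
      exact Or.inl (Finset.mem_singleton.1 ha)
    · rw [Finset.card_singleton, den2 h]
      norm_num
  · have hbc : b ≠ c := by
      rintro rfl
      exact h ⟨b, rfl⟩
    refine main {b, c} ?_ ?_ ?_
    · intro V' hV' hne hsq
      by_cases h1 : b ∈ V'
      · by_cases h2 : c ∈ V'
        · have : V' = {b, c} := Finset.Subset.antisymm hV' (by
            intro x hx
            rcases Finset.mem_insert.1 hx with rfl | hx
            · exact h1
            · rw [Finset.mem_singleton.1 hx]; exact h2)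
          rw [this, Finset.prod_pair hbc] at hsq
          exact h hsq
        · have : V' = {b} := Finset.Subset.antisymm (by
            intro x hx
            rcases Finset.mem_insert.1 (hV' hx) with h' | h'
            · rw [h']; exact Finset.mem_singleton_self b
            · exact absurd (Finset.mem_singleton.1 h' ▸ hx) h2) (Finset.singleton_subset_iff.2 h1)
          rw [this, Finset.prod_singleton] at hsq
          exact hb hsq
      · have : V' = {c} := by
          refine Finset.Subset.antisymm (fun x hx => ?_) ?_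
          · rcases Finset.mem_insert.1 (hV' hx) with h' | h'
            · exact absurd (h' ▸ hx) h1
            · exact h'
          · obtain ⟨x, hx⟩ := hne
            rcases Finset.mem_insert.1 (hV' hx) with h' | h'
            · exact absurd (h' ▸ hx) h1
            · rw [Finset.singleton_subset_iff, ← Finset.mem_singleton.1 h']
              exact hx
        rw [this, Finset.prod_singleton] at hsq
        exact hc hsq
    · intro a ha
      rcases Finset.mem_insert.1 ha with h' | h'
      · exact Or.inl h'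
      · exact Or.inr (Finset.mem_singleton.1 h')
    · rw [Finset.card_pair hbc, den1 h]
      norm_num

end Pool.Agent.U67.GZ
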